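import Pool.Agent.R364.DE.Main

/-!
# MP_d00095_nt: if one order with involution is twisted Euclidean then all the maximal ones are

`K` is a number field and `H = (a, b / K)` a quaternion algebra over `K` (Mathlib's `ℍ[K, a, b]`, with
`i² = a`, `j² = b`, `ij = -ji`; every quaternion algebra over `K` is isomorphic to one of these);
`star z` is the standard involution. Let `z‡ = u (star z) u⁻¹` be an orthogonal involution of `H`.

We prove that Q1 has a positive answer: if some order of `H` which is stable under the involution is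
twisted Euclidean, then all the maximal ones among these orders are twisted Euclidean.

Proof. (1) Let `R` be a twisted Euclidean order and `z = z‡` a symmetric element which is integral over
`𝓞 K`. By the Euclidean algorithm `R + z R = g R` for some `g`. As `u (R + z R) u⁻¹ = R + z R`, the order
`R' = g R g⁻¹` is stable, and `g‡ g` is the product of the norm of `g` and of a unit `e = e‡` of `R`, so
that `R'` with its involution is isomorphic to `R` with the involution `x ↦ e⁻¹ x‡ e`. As a Euclidean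
function of `R` can be chosen invariant under right multiplication by units, `R'` is twisted Euclidean
too. It contains `z`, and all `x ∈ R` which are in a common order with `z`, because of
`x z = tr(x z) - star z * star x`. (2) If `O` is any stable order, then applying (1) to generators of the
module `O⁺` of the symmetric elements of `O` we find a twisted Euclidean order `R' ⊇ O⁺`. (3) If `O` is a
maximal stable order and `R'` is a stable order with `O⁺ ⊆ R'` then `O⁺ = R'⁺`: for `y ∈ R'⁺` let `𝔟` be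
the ideal of the `c` with `c y ∈ O`. If `𝔟` is contained in a prime `𝔭`, then there are `c ∈ 𝔟` and
`x ∈ O` such that the trace `t` of `x c y` is not in `𝔭`, since otherwise `O` could be enlarged; but
`t² = tr((x c y x‡) c y) + c² nrd(y) tr(x star(x‡))` is in `𝔭`, as `x c y x‡ ∈ O⁺ ⊆ R'`.
(4) The twisted Euclidean property is inherited by all stable orders with the same symmetric elements
(or more of them): take the function `x ↦ Φ (n x)`, `n O ⊆ R'`.
-/

set_option autoImplicit false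

namespace Pool.Agent.Results.MP_d00095_nt.AllMaximalOrders

open NumberField Quaternion

variable {K : Type} [Field K] [NumberField K] {a b : K}

/-- `u` is an invertible element of `H` which is not in `K` and whose square is in `K`: the elements
which define orthogonal involutions. -/
def DefinesInvolution (u : ℍ[K, a, b]ˣ) : Prop :=
  (u : ℍ[K, a, b]) ∉ Set.range (algebraMap K ℍ[K, a, b]) ∧
    (u : ℍ[K, a, b]) ^ 2 ∈ Set.range (algebraMap K ℍ[K, a, b])

/-- The orthogonal involution `z‡ = u z̄ u⁻¹`, where `z̄ = star z` is the standard involution. -/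
def dagger (u : ℍ[K, a, b]ˣ) (z : ℍ[K, a, b]) : ℍ[K, a, b] :=
  (u : ℍ[K, a, b]) * star z * ((u⁻¹ : ℍ[K, a, b]ˣ) : ℍ[K, a, b])

/-- `O` is an order of `H`: a subring which is a finitely generated `𝓞 K`-module with `K O = H`. -/
structure IsOrder (O : Subalgebra (𝓞 K) ℍ[K, a, b]) : Prop where
  fg : (Subalgebra.toSubmodule O).FG
  span : Submodule.span K (O : Set ℍ[K, a, b]) = ⊤

/-- `O` is an order with `O‡ = O`. -/
def IsDaggerOrder (u : ℍ[K, a, b]ˣ) (O : Subalgebra (𝓞 K) ℍ[K, a, b]) : Prop :=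
  IsOrder O ∧ dagger u '' (O : Set ℍ[K, a, b]) = O

/-- `O` is a `‡`-order which is not strictly contained in another `‡`-order. -/
def IsMaximalDaggerOrder (u : ℍ[K, a, b]ˣ) (O : Subalgebra (𝓞 K) ℍ[K, a, b]) : Prop :=
  IsDaggerOrder u O ∧ ∀ O' : Subalgebra (𝓞 K) ℍ[K, a, b], IsDaggerOrder u O' → ¬ O < O'

/-- `O⁺`, the set of the `z ∈ O` with `z‡ = z`. -/
def plus (u : ℍ[K, a, b]ˣ) (O : Subalgebra (𝓞 K) ℍ[K, a, b]) : Set ℍ[K, a, b] :=
  {z | z ∈ O ∧ dagger u z = z}

/-- There are a well-ordered set `W` and a map `Φ : O → W` such that for all `x, y ∈ O` with `y ≠ 0`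
and `x y‡ ∈ O⁺` there is `q ∈ O⁺` with `Φ (x - y q) < Φ (y)`. -/
def IsDaggerEuclidean (u : ℍ[K, a, b]ˣ) (O : Subalgebra (𝓞 K) ℍ[K, a, b]) : Prop :=
  ∃ (W : Type) (_ : LinearOrder W) (_ : WellFoundedLT W) (Φ : O → W),
    ∀ x y : O, y ≠ 0 → (x : ℍ[K, a, b]) * dagger u (y : ℍ[K, a, b]) ∈ plus u O →
      ∃ q : O, (q : ℍ[K, a, b]) ∈ plus u O ∧ Φ (x - y * q) < Φ y

open Pool.Agent.R364.DE

/-- The standard involution. -/
noncomputable def stdInv (K : Type) [Field K] (a b : K) : StdInv K ℍ[K, a, b] where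
  tr x := 2 * x.re
  nm x := (x * star x).re
  add_star x := by
    rw [QuaternionAlgebra.self_add_star', QuaternionAlgebra.coe_algebraMap]; simp
  mul_star x := by
    rw [QuaternionAlgebra.coe_algebraMap]; exact QuaternionAlgebra.mul_star_eq_coe x
  star_alg c := by
    rw [QuaternionAlgebra.coe_algebraMap, QuaternionAlgebra.star_coe]

omit [NumberField K] in
theorem star_of_defines {u : ℍ[K, a, b]ˣ} (hu : DefinesInvolution u) :
    star (u : ℍ[K, a, b]) = -(u : ℍ[K, a, b]) := by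
  let S := stdInv K a b
  obtain ⟨h1, c, hc⟩ := hu
  have h2 := S.sq (u : ℍ[K, a, b])
  rw [← pow_two, ← hc] at h2
  have h3 : S.tr (u : ℍ[K, a, b]) = 0 := by
    by_contra h0
    apply h1
    refine ⟨(S.tr (u : ℍ[K, a, b]))⁻¹ * (c + S.nm (u : ℍ[K, a, b])), ?_⟩
    rw [map_mul, map_add, h2, sub_add_cancel, ← mul_assoc, ← map_mul, inv_mul_cancel₀ h0, map_one,
      one_mul]
  rw [S.star_eq, h3, map_zero, zero_sub]

theorem clear_of_span {O : Subalgebra (𝓞 K) ℍ[K, a, b]}
    (h : Submodule.span K (O : Set ℍ[K, a, b]) = ⊤) (x : ℍ[K, a, b]) :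
    ∃ d : 𝓞 K, d ≠ 0 ∧ d • x ∈ O := by
  have hx : x ∈ Submodule.span K (O : Set ℍ[K, a, b]) := h ▸ Submodule.mem_top
  induction hx using Submodule.span_induction with
  | mem x hx => exact ⟨1, one_ne_zero, by rw [one_smul]; exact hx⟩
  | zero => exact ⟨1, one_ne_zero, by rw [smul_zero]; exact O.zero_mem⟩
  | add x y _ _ hx hy =>
    obtain ⟨d, hd, h1⟩ := hx
    obtain ⟨d', hd', h2⟩ := hy
    refine ⟨d * d', mul_ne_zero hd hd', ?_⟩
    rw [smul_add]
    refine O.add_mem ?_ ?_
    · rw [mul_comm, mul_smul]; exact O.smul_mem h1 d'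
    · rw [mul_smul]; exact O.smul_mem h2 d
  | smul c x _ hx =>
    obtain ⟨d, hd, h1⟩ := hx
    obtain ⟨p, q, hq, hpq⟩ := IsFractionRing.div_surjective (A := 𝓞 K) c
    have hq0 : q ≠ 0 := nonZeroDivisors.ne_zero hq
    have hqK : algebraMap (𝓞 K) K q ≠ 0 := fun h =>
      hq0 ((IsFractionRing.injective (𝓞 K) K) (by rw [h, map_zero]))
    refine ⟨q * d, mul_ne_zero hq0 hd, ?_⟩
    have h2 : (q * d) • c • x = p • d • x := by
      have h3 : (algebraMap (𝓞 K) K q) * c = algebraMap (𝓞 K) K p := by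
        rw [← hpq]; field_simp
      rw [← algebraMap_smul K (q * d) (c • x), ← algebraMap_smul K p (d • x),
        ← algebraMap_smul K d x, smul_smul, smul_smul, map_mul, ← h3]
      congr 1; ring
    rw [h2]
    exact O.smul_mem h1 p

theorem isDOrd {u : ℍ[K, a, b]ˣ} {O : Subalgebra (𝓞 K) ℍ[K, a, b]} (h : IsDaggerOrder u O) :
    IsDOrd u O where
  fg := h.1.fg
  clear := clear_of_span h.1.span
  stable x hx := by
    have : dagger u x ∈ dagger u '' (O : Set ℍ[K, a, b]) := ⟨x, hx, rfl⟩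
    rw [h.2] at this
    exact this

theorem isDaggerOrder {u : ℍ[K, a, b]ˣ} (hu : DefinesInvolution u)
    {O : Subalgebra (𝓞 K) ℍ[K, a, b]} (h : IsDOrd u O) : IsDaggerOrder u O := by
  refine ⟨⟨h.fg, ?_⟩, ?_⟩
  · rw [eq_top_iff]
    intro x _
    obtain ⟨d, hd, h1⟩ := h.clear x
    have hdK : algebraMap (𝓞 K) K d ≠ 0 := fun h =>
      hd ((IsFractionRing.injective (𝓞 K) K) (by rw [h, map_zero]))
    have h2 : x = (algebraMap (𝓞 K) K d)⁻¹ • (d • x) := by
      rw [← algebraMap_smul K d x, smul_smul, inv_mul_cancel₀ hdK, one_smul]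
    rw [h2]
    exact Submodule.smul_mem _ _ (Submodule.subset_span h1)
  · ext x
    constructor
    · rintro ⟨y, hy, rfl⟩
      exact h.stable y hy
    · intro hx
      exact ⟨dagger u x, h.stable x hx, dag_dag (stdInv K a b) (star_of_defines hu) x⟩

omit [NumberField K] in
theorem euc_of {u : ℍ[K, a, b]ˣ} {O : Subalgebra (𝓞 K) ℍ[K, a, b]} (hO : IsDOrd u O)
    (h : IsDaggerEuclidean u O) : Euc u O := by
  classical
  obtain ⟨W, i1, i2, Φ, hΦ⟩ := h
  let Ψ : ℍ[K, a, b] → W := fun x => if hx : x ∈ O then Φ ⟨x, hx⟩ else Φ 0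
  have hΨ : ∀ x : O, Ψ (x : ℍ[K, a, b]) = Φ x := fun x => dif_pos x.2
  refine ⟨W, i1, i2, Ψ, ?_⟩
  intro x hx y hy hy0 hxy
  have h1 : x * dagger u y ∈ plus u O := ⟨O.mul_mem hx (hO.stable y hy), hxy⟩
  obtain ⟨q, hq, hlt⟩ := hΦ ⟨x, hx⟩ ⟨y, hy⟩ (fun h => hy0 (congrArg Subtype.val h)) h1
  refine ⟨(q : ℍ[K, a, b]), q.2, hq.2, ?_⟩
  rw [← hΨ, ← hΨ] at hlt
  exact hlt

omit [NumberField K] in
theorem of_euc {u : ℍ[K, a, b]ˣ} {O : Subalgebra (𝓞 K) ℍ[K, a, b]}
    (h : Euc u O) : IsDaggerEuclidean u O := by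
  obtain ⟨W, i1, i2, Φ, hΦ⟩ := h
  refine ⟨W, i1, i2, fun x => Φ (x : ℍ[K, a, b]), fun x y hy0 hxy => ?_⟩
  have h0 : (y : ℍ[K, a, b]) ≠ 0 := fun h => hy0 (Subtype.ext h)
  have h1 : dag u ((x : ℍ[K, a, b]) * dag u (y : ℍ[K, a, b])) =
    (x : ℍ[K, a, b]) * dag u (y : ℍ[K, a, b]) := hxy.2
  obtain ⟨q, hq, hqd, hlt⟩ := hΦ (x : ℍ[K, a, b]) x.2 (y : ℍ[K, a, b]) y.2 h0 h1
  exact ⟨⟨q, hq⟩, ⟨hq, hqd⟩, hlt⟩

/-- Let `H` be a quaternion algebra over a number field `K` with an orthogonal involution `‡`. If some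
`‡`-order of `H` is `‡`-Euclidean, then every maximal `‡`-order of `H` is `‡`-Euclidean. -/
theorem result (K : Type) [Field K] [NumberField K] (a b : K) (_ha : a ≠ 0) (_hb : b ≠ 0)
    (u : ℍ[K, a, b]ˣ) (hu : DefinesInvolution u)
    (h : ∃ R : Subalgebra (𝓞 K) ℍ[K, a, b], IsDaggerOrder u R ∧ IsDaggerEuclidean u R) :
    ∀ O : Subalgebra (𝓞 K) ℍ[K, a, b], IsMaximalDaggerOrder u O → IsDaggerEuclidean u O := by
  intro O hO
  obtain ⟨R, hR, hE⟩ := h
  refine of_euc (main (stdInv K a b) (star_of_defines hu) (isDOrd hR) (euc_of (isDOrd hR) hE)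
    (isDOrd hO.1) fun O' hO' hle => ?_)
  by_contra hcon
  exact hO.2 O' (isDaggerOrder hu hO') (lt_of_le_not_ge hle hcon)

end Pool.Agent.Results.MP_d00095_nt.AllMaximalOrders
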